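import Mathlib
import Pool.Agent.V11209.GridDefs
import Pool.Agent.V11209.GridLat

set_option autoImplicit false

/-!
The Fisher information functional `F^α_{σ_R}` is unbounded above on the lattices of unit volume of
`ℝ^d`, for all `d ≥ 2`, `α > 0` and `R > 0`.  In particular neither `𝖠₂` nor `𝖣₃` is a maximiser.
-/

namespace Pool.Agent.Results.MP_e166ae_gt.NoMaximiser

open Pool.Agent.V11209.Grid

theorem result :
    -- unboundedness in all dimensions `n + 2 ≥ 2`
    (∀ (n : ℕ) (α R : ℝ), 0 < α → 0 < R → ∀ C : ℝ,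
      ∃ L : Submodule ℤ (EuclideanSpace ℝ (Fin (n + 2))), IsUnimodular L ∧ C < fisher R α L) ∧
    -- the negated form of Q1, for every `R > 0`
    (IsUnimodular A2 ∧ ∀ R : ℝ, 0 < R → ∃ L : Submodule ℤ (EuclideanSpace ℝ (Fin 2)),
      IsUnimodular L ∧ (∀ φ, L ≠ image φ A2) ∧
        fisher R (10 / Real.pi) A2 < fisher R (10 / Real.pi) L) ∧
    -- the negated form of Q2, for every `R > 0`
    (IsUnimodular D3 ∧ ∀ R : ℝ, 0 < R → ∃ L : Submodule ℤ (EuclideanSpace ℝ (Fin 3)),
      IsUnimodular L ∧ (∀ φ, L ≠ image φ D3) ∧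
        fisher R (10 / Real.pi) D3 < fisher R (10 / Real.pi) L) :=
  ⟨fun n _ _ hα hR C => unbounded n hα hR C,
    ⟨A2_uni, fun _ hR => final 0 (by positivity) hR A2⟩,
    ⟨D3_uni, fun _ hR => final 1 (by positivity) hR D3⟩⟩

end Pool.Agent.Results.MP_e166ae_gt.NoMaximiser
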